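import Pool.Agent.Y463.KN.Basic

/-!
# The normalised brackets of the knotoid diagrams obtained by inserting powers of braids

Diagrams (starting library `Pool.Agent.H891R2.Jones.Diagram`): `Diagram P` (oriented diagrams with marked
points `P`, planar or not; `Diagram.loops`, the number of components of a state, counts circles and
intervals), `Diagram.fPoly` (the normalised bracket `(-A^{-3})^{w(D)} ⟨D⟩`), `Outer m` (the part of an
oriented diagram outside a box through which `m` strands run, with arbitrary directions), `Outer.close`
(fills the rest of the box with vertical strands).  `IsKnotoid D` (starting library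
`Pool.Agent.H832R3.TW.E`): the pieces of `D` form one oriented interval, running from a marked point `tail`
to a different marked point `head`, and (possibly) oriented closed curves.  Starting library
`Pool.Agent.W639.RB.Defs`: `Letter m` (the letters `σ_i^{±1}` of the braid group on `m` strands).

Definitions of `Pool.Agent.Y463.SK.Defs`, for words `w` (lists of letters): `powW w n` (the power `w^n`,
`n ∈ ℤ`), `permW w` (the permutation of the strands), `IsPure w` (`permW w = 1`: `w` is a pure braid),
`dia O w` (the diagram obtained by drawing `w` in the box of `O` and filling the rest of the box with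
vertical strands), `multiW w v n = w_1^{n_1} v_1 w_2^{n_2} v_2 ⋯ w_k^{n_k} v_k`.

The proof of the second part is the one of `MP_42db45_gt.PureBraidPowers`; the brackets count circles and
intervals, so that the endpoints of the knotoid may be anywhere outside the box.
-/

set_option autoImplicit false

namespace Pool.Agent.Results.MP_79b4ff_gt.KnotoidBraidPowers

open Finset LaurentPolynomial Pool.Agent.H891R2.Jones Pool.Agent.W639.RB Pool.Agent.Y463.SK
  Pool.Agent.H832R3.TW Pool.Agent.Y463.KN

open Classical in
/-- Let `O` be the part of a diagram of a knotoid outside a box through which `m ≥ 1` strands run, let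
`w_1, …, w_k` and `v_1, …, v_k` be braid words on `m` strands, let `r_i` be such that `w_i^{r_i}` is
pure (for instance `r_i = 1` if `w_i` is pure, `r_i = m!` in general), let `s ∈ ℤ^k`, and for `q ∈ ℤ^k`
let `K(q)` be the diagram obtained by drawing the braid `w_1^{n_1} v_1 w_2^{n_2} v_2 ⋯ w_k^{n_k} v_k`,
`n_i = r_i q_i + s_i`, in the box.  If the permutation of this braid preserves the directions of the
strands for `q = 0`, then all `K(q)` are diagrams of knotoids.

Let `F` be any Laurent polynomial, for example `1`, the normalised bracket of the trivial knotoid.  Then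
either all the `K(q)`, `q ∈ ℤ^k`, have the normalised bracket `F`, or for all finite sets
`A_1, …, A_k` of integers at most `m! ∑_i ∏_{j ≠ i} |A_j|` of the `∏_j |A_j|` diagrams `K(q)` with
`q ∈ A_1 × ⋯ × A_k` have it.  For `k = 1` the bound is `m!`: in the sequence of the knotoid diagrams with
the braids `w^{rq+s} v`, `q ∈ ℤ`, at most `m!` have the normalised bracket `F`, or all of them. -/
theorem result (m k : ℕ) (hm : 0 < m) (O : Outer m) (hO : IsKnotoid O.close) 
    (w v : Fin k → List (Letter m)) (r : Fin k → ℕ) (hr : ∀ i, IsPure (powW (w i) (r i))) 
    (s : Fin k → ℤ) (hv : ∀ j, O.up (permW (multiW w v s) j) = O.up j) (F : ℤ[T;T⁻¹]) :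
    (∀ q : Fin k → ℤ, IsKnotoid (dia O (multiW w v (fun i => r i * q i + s i)))) ∧
    ((∀ q : Fin k → ℤ, (dia O (multiW w v (fun i => r i * q i + s i))).fPoly = F) ∨ 
      ∀ A : Fin k → Finset ℤ, ((Fintype.piFinset A).filter 
        (fun q => (dia O (multiW w v (fun i => r i * q i + s i))).fPoly = F)).card ≤ 
          m.factorial * ∑ i, ∏ j ∈ univ.erase i, (A j).card) := by
  refine ⟨fun q => ?_, multi_general hm O w v r hr s F⟩
  apply knotoid_dia O hO
  intro j
  rw [permW_multi w v r hr s q]
  exact hv j

end Pool.Agent.Results.MP_79b4ff_gt.KnotoidBraidPowers
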