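import Pool.Agent.Y463.KN.Basic

/-!
# A zero-one law for random elements of finitely generated groups of braids in knotoid diagrams

Diagrams (starting library `Pool.Agent.H891R2.Jones.Diagram`): `Diagram P` (oriented diagrams with marked
points `P`, planar or not; `Diagram.loops`, the number of components of a state, counts circles and
intervals), `Diagram.fPoly` (the normalised bracket `(-A^{-3})^{w(D)} ⟨D⟩`), `Outer m` (the part of an
oriented diagram outside a box through which `m` strands run, with arbitrary directions), `Outer.close`
(fills the rest of the box with vertical strands).  `IsKnotoid D` (starting library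
`Pool.Agent.H832R3.TW.E`): the pieces of `D` form one oriented interval, running from a marked point `tail`
to a different marked point `head`, and (possibly) oriented closed curves.  Starting library
`Pool.Agent.W639.RB.Defs`: `Letter m` (the letters `σ_i^{±1}` of the braid group on `m` strands).

Definitions of `Pool.Agent.Y463.SK.Defs` and `Pool.Agent.Y463.RW.Defs`, for words (lists of letters):
`permW w` (the permutation of the strands), `dia O w` (the diagram obtained by drawing `w` in the box of `O`
and filling the rest of the box with vertical strands), `prodW w u` (the product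
`w_{i_1}^{±1} ⋯ w_{i_n}^{±1}` given by the sequence `u` of `n` pairs `(i, ±)`).

The proof of the second part is the one of `MP_42db45_gt.SubgroupZeroOneLaw`; the brackets count circles and
intervals, so that the endpoints of the knotoid may be anywhere outside the box.
-/

set_option autoImplicit false

namespace Pool.Agent.Results.MP_79b4ff_gt.KnotoidBraidSubgroups

open Finset LaurentPolynomial Pool.Agent.H891R2.Jones Pool.Agent.W639.RB Pool.Agent.Y463.SK 
  Pool.Agent.Y463.RW Pool.Agent.H832R3.TW Pool.Agent.Y463.KN

open Classical in
/-- **Zero-one law for knotoids.**  For all `m, s ≥ 1` there is a constant `C`, depending only on `m` and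
`s`, with the following property.  Let `w_1, …, w_s` be arbitrary braid words on `m` strands, let `O` be the
part of a diagram of a knotoid outside a box through which `m` strands run, let `v` be a further braid word,
`F` a Laurent polynomial (for instance `1`, the normalised bracket of the trivial knotoid) and `τ` a
permutation such that `τ` followed by the permutation of `v` respects the directions of the strands.
Consider the products `u = w_{i_1}^{±1} ⋯ w_{i_n}^{±1}` with permutation `τ`: the diagrams obtained by
drawing `u v` in the box are diagrams of knotoids.

Either for all products `u` with permutation `τ`, of any length, the normalised bracket is `F`, or for every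
`n ≥ 1` at most `C n^{-c} (2 s)^n` of the `(2 s)^n` products of length `n` have the permutation `τ` and give
a knotoid diagram with the normalised bracket `F`, where `c = 1 / (3 · 2^(m! 2^m + 2))`. -/
theorem result (m s : ℕ) (hm : 0 < m) (hs : 0 < s) : ∃ C : ℝ, 0 < C ∧ 
    ∀ (O : Outer m), IsKnotoid O.close → ∀ (w : Fin s → List (Letter m)) (v : List (Letter m)) 
      (τ : Equiv.Perm (Fin m)) (F : ℤ[T;T⁻¹]), (∀ j, O.up ((τ * permW v) j) = O.up j) → 
      (∀ (n : ℕ) (u : Fin n → Fin s × Bool), permW (prodW w u) = τ → 
          IsKnotoid (dia O (prodW w u ++ v))) ∧
      ((∀ (n : ℕ) (u : Fin n → Fin s × Bool), permW (prodW w u) = τ → 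
          (dia O (prodW w u ++ v)).fPoly = F) ∨ 
        ∀ n : ℕ, 0 < n → ((univ.filter (fun u : Fin n → Fin s × Bool => 
          permW (prodW w u) = τ ∧ (dia O (prodW w u ++ v)).fPoly = F)).card : ℝ) ≤ 
            C * (n : ℝ) ^ (-(1 / (3 * 2 ^ (m.factorial * 2 ^ m + 2))) : ℝ) * (2 * s : ℝ) ^ n) := by
  refine ⟨Cst (2 * s : ℝ) (dimB m + 1), lt_of_lt_of_le one_pos (Cst_ge _ _), 
    fun O hO w v τ F hτ => ⟨?_, ?_⟩⟩
  · intro n u hu
    apply knotoid_dia O hO
    have h1 : permW (prodW w u ++ v) = τ * permW v := by
      rw [← hu]
      simp [permW]
    rw [h1]
    exact hτ
  · exact zero_one hm hs O w v F τ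

end Pool.Agent.Results.MP_79b4ff_gt.KnotoidBraidSubgroups
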