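import Pool.Agent.Y463.KN.Basic

/-!
# Random braid words in a box of a knotoid diagram: the bracket modulo `N` and its number of terms

Diagrams (starting library `Pool.Agent.H891R2.Jones.Diagram`): `Diagram P` (oriented diagrams with marked
points `P`, planar or not; `Diagram.loops`, the number of components of a state, counts circles and
intervals), `Diagram.fPoly` (the normalised bracket `(-A^{-3})^{w(D)} ⟨D⟩`), `Outer m` (the part of an
oriented diagram outside a box through which `m` strands run, with arbitrary directions), `Outer.close`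
(fills the rest of the box with vertical strands).  `IsKnotoid D` (starting library
`Pool.Agent.H832R3.TW.E`): the pieces of `D` form one oriented interval, running from a marked point `tail`
to a different marked point `head`, and (possibly) oriented closed curves.  `Pool.Agent.W639.RB.Defs`
(starting library): `Letter m = Bool × Fin (m - 1)` (the letters `σ_i^{±1}`), `perm w` (the permutation of the
word), `diagram O w` (the diagram obtained by drawing the word `w : Fin n → Letter m` in the box of `O`).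

`Pool.Agent.Y463.MP.Defs`: `nonmult N f` (the number of the coefficients of the Laurent polynomial `f` which
are not divisible by `N`), `Pr p n E` (the probability of the property `E` for a word of `n` independent
letters with the distribution `p`), `osize O`, `dsize D` (the number of crossings and marked points of an
outside and of a diagram).

The proof of the estimates is the one of `MP_42db45_gt.RandomBraidsModN` (spectral gap uniform in the prime
`ℓ` for the action of braids on the subspaces of a Temperley-Lieb module over the algebraic closure of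
`𝔽_ℓ(A)`); the brackets count circles and intervals, so that the endpoints of the knotoid may be anywhere
outside the box.
-/

set_option autoImplicit false

namespace Pool.Agent.Results.MP_79b4ff_gt.KnotoidBraidsModN

open Finset LaurentPolynomial Pool.Agent.H891R2.Jones Pool.Agent.W639.RB Pool.Agent.Y463.MP
  Pool.Agent.H832R3.TW Pool.Agent.Y463.KN

open Classical in
/-- **The normalised bracket of random knotoid diagrams modulo `N`.**  Let `m ≥ 3`.

* If `O` is the part of a diagram of a knotoid outside a box through which `m` strands run, and the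
  permutation `τ` of the places preserves the directions of the strands, then all words with the
  permutation `τ`, drawn in the box, give diagrams of knotoids.
* Let `p > 0` be a probability vector on the letters `σ_i^{±1}`.  There is `r < 1` such that:
  - there is `C` such that for all `N ≥ 2`, all outsides `O` of a box with `m` strands, all Laurent
    polynomials `g` (for instance `g = 1`) and all `n`, the normalised bracket of the diagram with a random
    word of length `n` in the box is congruent to `g` modulo `N` with probability at most `C r^n`;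
  - for all `N ≥ 2` and `κ` there are `δ > 0` and `C` such that for all `O` with at most `κ (n + 1)`
    crossings and marked points, the normalised bracket has at most `δ n` coefficients not divisible by `N`
    with probability at most `C r^n`;
  - for all `N ≥ 2` and `κ` there are `ε > 0` and `C` such that for these `O`, with probability at most
    `C r^n` there is a diagram (of a knot, of a knotoid, planar or not) with at most `ε n` crossings and
    marked points whose normalised bracket is congruent to the one of the random diagram modulo `N`.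
* The same three bounds hold for the proportion among the words of length `n` with a given permutation `τ`
  (`n` large, with the parity of `τ`), uniformly in `τ`; for instance for those `τ` for which the diagrams
  are diagrams of knotoids without further components. -/
theorem result (m : ℕ) (hm : 3 ≤ m) : 
    (∀ (O : Outer m), IsKnotoid O.close → ∀ τ : Equiv.Perm (Fin m), (∀ j, O.up (τ j) = O.up j) → 
      ∀ (n : ℕ) (w : Fin n → Letter m), perm w = τ → IsKnotoid (diagram O w)) ∧
    (∀ p : Letter m → ℝ, (∀ x, 0 < p x) → ∑ x, p x = 1 → ∃ r : ℝ, 0 < r ∧ r < 1 ∧ 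
      (∃ C : ℝ, ∀ N : ℕ, 2 ≤ N → ∀ (O : Outer m) (g : ℤ[T;T⁻¹]) (n : ℕ), 
        Pr p n (fun w => (N : ℤ[T;T⁻¹]) ∣ (diagram O w).fPoly - g) ≤ C * r ^ n) ∧ 
      (∀ N : ℕ, 2 ≤ N → ∀ κ : ℝ, ∃ δ : ℝ, 0 < δ ∧ ∃ C : ℝ, ∀ (O : Outer m) (n : ℕ), 
        (osize O : ℝ) ≤ κ * (n + 1) → 
        Pr p n (fun w => (nonmult N (diagram O w).fPoly : ℝ) ≤ δ * n) ≤ C * r ^ n) ∧ 
      (∀ N : ℕ, 2 ≤ N → ∀ κ : ℝ, ∃ ε : ℝ, 0 < ε ∧ ∃ C : ℝ, ∀ (O : Outer m) (n : ℕ), 
        (osize O : ℝ) ≤ κ * (n + 1) → 
        Pr p n (fun w => ∃ (P : Type) (_ : Finite P) (D : Diagram P), (dsize D : ℝ) ≤ ε * n ∧ 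
          (N : ℤ[T;T⁻¹]) ∣ (diagram O w).fPoly - D.fPoly) ≤ C * r ^ n)) ∧
    (∃ (r : ℝ) (l0 : ℕ), 0 < r ∧ r < 1 ∧ 
      (∃ C : ℝ, ∀ N : ℕ, 2 ≤ N → ∀ (O : Outer m) (g : ℤ[T;T⁻¹]) (τ : Equiv.Perm (Fin m)) (n : ℕ), 
        l0 ≤ n → Equiv.Perm.sign τ = (-1) ^ n → 
        ((univ.filter (fun w : Fin n → Letter m => 
          perm w = τ ∧ (N : ℤ[T;T⁻¹]) ∣ (diagram O w).fPoly - g)).card : ℝ) ≤ 
            C * r ^ n * (univ.filter (fun w : Fin n → Letter m => perm w = τ)).card) ∧ 
      (∀ N : ℕ, 2 ≤ N → ∀ κ : ℝ, ∃ δ : ℝ, 0 < δ ∧ ∃ C : ℝ, ∀ (O : Outer m) (τ : Equiv.Perm (Fin m)) (n : ℕ), 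
        l0 ≤ n → Equiv.Perm.sign τ = (-1) ^ n → (osize O : ℝ) ≤ κ * (n + 1) → 
        ((univ.filter (fun w : Fin n → Letter m => 
          perm w = τ ∧ (nonmult N (diagram O w).fPoly : ℝ) ≤ δ * n)).card : ℝ) ≤ 
            C * r ^ n * (univ.filter (fun w : Fin n → Letter m => perm w = τ)).card) ∧ 
      (∀ N : ℕ, 2 ≤ N → ∀ κ : ℝ, ∃ ε : ℝ, 0 < ε ∧ ∃ C : ℝ, ∀ (O : Outer m) (τ : Equiv.Perm (Fin m)) (n : ℕ), 
        l0 ≤ n → Equiv.Perm.sign τ = (-1) ^ n → (osize O : ℝ) ≤ κ * (n + 1) → 
        ((univ.filter (fun w : Fin n → Letter m => 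
          perm w = τ ∧ ∃ (P : Type) (_ : Finite P) (D : Diagram P), (dsize D : ℝ) ≤ ε * n ∧ 
            (N : ℤ[T;T⁻¹]) ∣ (diagram O w).fPoly - D.fPoly)).card : ℝ) ≤ 
              C * r ^ n * (univ.filter (fun w : Fin n → Letter m => perm w = τ)).card)) := by
  refine ⟨fun O hO τ hτ n w hw => knotoid_diagram O hO w (up_perm O w (by rw [hw]; exact hτ)), ?_⟩
  have key : ∀ p : Letter m → ℝ, (∀ x, 0 < p x) → ∑ x, p x = 1 → ∃ r : ℝ, 0 < r ∧ r < 1 ∧ 
      (∃ C : ℝ, ∀ N : ℕ, 2 ≤ N → ∀ (O : Outer m) (g : ℤ[T;T⁻¹]) (n : ℕ), 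
        Pr p n (fun w => (N : ℤ[T;T⁻¹]) ∣ (diagram O w).fPoly - g) ≤ C * r ^ n) ∧ 
      (∀ N : ℕ, 2 ≤ N → ∀ κ : ℝ, ∃ δ : ℝ, 0 < δ ∧ ∃ C : ℝ, ∀ (O : Outer m) (n : ℕ), 
        (osize O : ℝ) ≤ κ * (n + 1) → 
        Pr p n (fun w => (nonmult N (diagram O w).fPoly : ℝ) ≤ δ * n) ≤ C * r ^ n) ∧ 
      (∀ N : ℕ, 2 ≤ N → ∀ κ : ℝ, ∃ ε : ℝ, 0 < ε ∧ ∃ C : ℝ, ∀ (O : Outer m) (n : ℕ), 
        (osize O : ℝ) ≤ κ * (n + 1) → 
        Pr p n (fun w => ∃ (P : Type) (_ : Finite P) (D : Diagram P), (dsize D : ℝ) ≤ ε * n ∧ 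
          (N : ℤ[T;T⁻¹]) ∣ (diagram O w).fPoly - D.fPoly) ≤ C * r ^ n) := by
    intro p hp hs
    obtain ⟨r, hr0, hr1, h1, h2⟩ := final hm p hp hs
    refine ⟨r, hr0, hr1, h1, h2, ?_⟩
    intro N hN κ
    obtain ⟨δ, hδ, C, hC⟩ := h2 N hN κ
    exact short p hp hs r hr0 hr1 N κ δ hδ C hC
  refine ⟨key, ?_⟩
  have hD0 : (0:ℝ) < ((2 * (m - 1) : ℕ) : ℝ) := by
    have : 0 < 2 * (m - 1) := by omega
    exact_mod_cast this
  obtain ⟨r, hr0, hr1, ⟨C1, h1⟩, h2, h3⟩ := key (fun _ => 1 / ((2 * (m - 1) : ℕ) : ℝ)) 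
    (fun _ => by positivity) (by
      rw [Finset.sum_const, Finset.card_univ, Pool.Agent.W705.JR.card_letter, nsmul_eq_mul]
      field_simp)
  obtain ⟨l0, c, hc, hk⟩ := permsE (m := m) (by omega) r hr0
  have hpow : ∀ n : ℕ, 0 ≤ r ^ n := fun n => by positivity
  refine ⟨r, l0, hr0, hr1, ⟨c * max C1 0, ?_⟩, ?_, ?_⟩
  · intro N hN O g τ n hn hpar
    exact hk τ n (max C1 0) _ hn hpar (le_max_right _ _) ((h1 N hN O g n).trans 
      (mul_le_mul_of_nonneg_right (le_max_left _ _) (hpow n)))
  · intro N hN κ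
    obtain ⟨δ, hδ, C, hC⟩ := h2 N hN κ
    refine ⟨δ, hδ, c * max C 0, ?_⟩
    intro O τ n hn hpar hO
    exact hk τ n (max C 0) _ hn hpar (le_max_right _ _) ((hC O n hO).trans 
      (mul_le_mul_of_nonneg_right (le_max_left _ _) (hpow n)))
  · intro N hN κ
    obtain ⟨ε, hε, C, hC⟩ := h3 N hN κ
    refine ⟨ε, hε, c * max C 0, ?_⟩
    intro O τ n hn hpar hO
    exact hk τ n (max C 0) _ hn hpar (le_max_right _ _) ((hC O n hO).trans 
      (mul_le_mul_of_nonneg_right (le_max_left _ _) (hpow n)))

end Pool.Agent.Results.MP_79b4ff_gt.KnotoidBraidsModN
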