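import Pool.Agent.Y463.MP.SgnFin
import Pool.Agent.Y463.KN.Basic

/-!
# Crossing changes in a knotoid diagram: exponentially few have a given bracket polynomial

Diagrams (starting library `Pool.Agent.H891R2.Jones.Diagram`): `Diagram P` (oriented diagrams with marked
points `P`, planar or not; `Diagram.loops`, the number of components of a state, counts circles and
intervals), `Diagram.fPoly` (the normalised bracket `(-A^{-3})^{w(D)} ⟨D⟩`), `Outer m` (the part of an
oriented diagram outside a box through which `m` strands run, with arbitrary directions), `Outer.close`
(fills the rest of the box with vertical strands).  `IsKnotoid D` (starting library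
`Pool.Agent.H832R3.TW.E`): the pieces of `D` form one oriented interval, running from a marked point `tail`
to a different marked point `head`, and (possibly) oriented closed curves.  `Pool.Agent.W639.RB.Defs`
(starting library): `Letter m = Bool × Fin (m - 1)` (the letters `σ_i^{±1}`), `draw O w`, `diagram O w` (the
diagram obtained by drawing the word `w : Fin n → Letter m` in the box of `O`).

`Pool.Agent.Y463.MP.Defs`: `Flips w S` (the words obtained from the word `w` by changing some of the
crossings whose numbers are in `S`), `switches w S` (the number of pairs of consecutive crossings which both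
belong to `S` and are at neighbouring places of the braid), `nonmult N f` (the number of the coefficients
of the Laurent polynomial `f` which are not divisible by `N`), `osize O`, `dsize D` (the number of crossings
and marked points of an outside and of a diagram).

The proof is the one of `MP_42db45_gt.CrossingChanges` (a spectral gap on the subspaces of a Temperley-Lieb
module over the algebraic closure of `𝔽_ℓ(A)`, by ping-pong with constants independent of `ℓ`); the brackets
count circles and intervals, so that the endpoints of the knotoid may be anywhere outside the box.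
-/

set_option autoImplicit false

namespace Pool.Agent.Results.MP_79b4ff_gt.KnotoidCrossingChanges

open Finset LaurentPolynomial Pool.Agent.H891R2.Jones Pool.Agent.W639.RB Pool.Agent.Y463.MP
  Pool.Agent.H832R3.TW Pool.Agent.Y463.KN

open Classical in
/-- **Crossing changes in a braid box of a knotoid diagram.**  Let `m ≥ 3`, let `O` be the part of a diagram
of a knotoid outside a box through which `m` strands run, and let `w` be a word of length `n` in the letters
`σ_i^{±1}` which respects the directions of the strands.  Then all words obtained from `w` by crossing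
changes give diagrams of knotoids.  There is `r < 1`, depending only on `m`, such that for these diagrams:

* there is `C` such that for all `N ≥ 2`, all `O`, all Laurent polynomials `g` (for instance `g = 1`), all
  words `w` and all sets `S` of crossings of `w`, among the `2^|S|` knotoid diagrams obtained by changing some
  of the crossings in `S` the proportion of those whose normalised bracket is congruent to `g` modulo `N` is at
  most `C r^s`, where `s` is the number of pairs of consecutive crossings in `S` at neighbouring places
  (`switches w S`);
* for all `N ≥ 2` and `κ` there are `δ > 0` and `C` such that if the word and the outside together have at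
  most `κ (s + 1)` crossings and marked points, the proportion of those for which at most `δ s` coefficients
  of the normalised bracket are not divisible by `N` is at most `C r^s`;
* for all `N ≥ 2` and `κ` there are `ε > 0` and `C` such that in the same situation the proportion of those
  whose normalised bracket is congruent modulo `N` to the one of some diagram (of a knot, of a knotoid, planar
  or not) with at most `ε s` crossings and marked points is at most `C r^s`.

In the last three statements `O` may be any outside. -/
theorem result (m : ℕ) (hm : 3 ≤ m) : 
    (∀ (O : Outer m), IsKnotoid O.close → ∀ (n : ℕ) (w : Fin n → Letter m), 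
      (draw O (toL w)).up = O.up → ∀ (S : Finset (Fin n)), ∀ w' ∈ Flips w S, IsKnotoid (diagram O w')) ∧
    ∃ r : ℝ, 0 < r ∧ r < 1 ∧ 
    (∃ C : ℝ, ∀ N : ℕ, 2 ≤ N → ∀ (O : Outer m) (g : ℤ[T;T⁻¹]) (n : ℕ) (w : Fin n → Letter m) 
      (S : Finset (Fin n)), 
      (((Flips w S).filter (fun w' => (N : ℤ[T;T⁻¹]) ∣ (diagram O w').fPoly - g)).card : ℝ) ≤ 
        C * r ^ switches w S * (Flips w S).card) ∧ 
    (∀ N : ℕ, 2 ≤ N → ∀ κ : ℝ, ∃ δ : ℝ, 0 < δ ∧ ∃ C : ℝ, ∀ (O : Outer m) (n : ℕ) (w : Fin n → Letter m) 
      (S : Finset (Fin n)), (osize O + n : ℝ) ≤ κ * (switches w S + 1) → 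
      (((Flips w S).filter (fun w' => (nonmult N (diagram O w').fPoly : ℝ) ≤ δ * switches w S)).card : ℝ) ≤ 
        C * r ^ switches w S * (Flips w S).card) ∧ 
    (∀ N : ℕ, 2 ≤ N → ∀ κ : ℝ, ∃ ε : ℝ, 0 < ε ∧ ∃ C : ℝ, ∀ (O : Outer m) (n : ℕ) (w : Fin n → Letter m) 
      (S : Finset (Fin n)), (osize O + n : ℝ) ≤ κ * (switches w S + 1) → 
      (((Flips w S).filter (fun w' => ∃ (P : Type) (_ : Finite P) (D : Diagram P), 
        (dsize D : ℝ) ≤ ε * switches w S ∧ 
          (N : ℤ[T;T⁻¹]) ∣ (diagram O w').fPoly - D.fPoly)).card : ℝ) ≤ 
        C * r ^ switches w S * (Flips w S).card) := by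
  refine ⟨fun O hO n w hup S w' hw' => flips_knotoid O hO w hup S w' hw', ?_⟩
  obtain ⟨r, hr0, hr1, ⟨C, hC⟩, h2⟩ := finalS hm
  refine ⟨r, hr0, hr1, ⟨C, ?_⟩, ?_, ?_⟩
  · intro N hN O g n w S
    rw [card_Flips]
    exact hC N hN O g n w S
  · intro N hN κ
    obtain ⟨δ, hδ, C, hC⟩ := h2 N hN κ
    refine ⟨δ, hδ, C, ?_⟩
    intro O n w S hO
    rw [card_Flips]
    exact hC O n w S hO
  · intro N hN κ
    obtain ⟨δ, hδ, C, hC⟩ := h2 N hN κ
    obtain ⟨ε, hε, C', hC'⟩ := shortS r hr0 hr1 N κ δ hδ C hC
    refine ⟨ε, hε, C', ?_⟩
    intro O n w S hO
    rw [card_Flips]
    exact hC' O n w S hO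

end Pool.Agent.Results.MP_79b4ff_gt.KnotoidCrossingChanges
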